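import Mathlib
import Pool.Agent.Helper71.TVW.Assemble
import Pool.Agent.Helper71.TVS.Lower

/-!
# Tverberg numbers of trees in odd dimension

In `ℝ ^ (2k+1)` the Tverberg number of a tree with `n` nodes, `i` of them inner nodes, is at most
`(k + 1 + ε) n + C i` and at least `(k + 1) n + τ - 1`, where `τ` is the vertex cover number. So it is
`(k + 1 + o(1)) n` if `i = o(n)`: half of the general upper bound `(d + 1) (n - 1) + 1`.

Lower bound: on the moment curve every set of at most `k` points is a face, so every part of a partition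
with connected nerve has at least `k + 1` points; two parts with `k + 1` points each are disjoint, so the
parts with at least `k + 2` points form a vertex cover.

Upper bound: the tree of the inner nodes is placed as in the general theorem (Radon's theorem with an
anchor, cuts by convex sets with convex complement), and the part of the inner node `v` gets a slab `D v`
of prescribed size that lies apart from all other parts. From `D v` the leaves at `v` are taken, `k + 1`
points at a time: let `B` be a small subset of `D v` meeting every subset `X` of `D v` with at least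
`ε |D v|` points whose hull is disjoint from the hull of `D v \ X` (the family of these `X` has bounded VC
dimension, by Radon's theorem, hence polynomial size). Every set of `c ε |D v|` points contains `k + 1`
points whose hull meets the hull of `B`: otherwise a random `(3k+3)`-tuple of them would contradict Radon's
theorem. The hulls of two leaves are disjoint, since `2k + 2` points in general position are affinely
independent.
-/

set_option autoImplicit false

open Finset

namespace Pool.Agent.Results.MP_92efc2_co.OddDimension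

/-- No `d + 1` points of `S` lie on a common affine hyperplane `a ⬝ x = b`, `a ≠ 0`. -/
def GeneralPosition {d : ℕ} (S : Finset (Fin d → ℝ)) : Prop :=
  ∀ A ⊆ S, A.card = d + 1 → ¬ ∃ (a : Fin d → ℝ) (b : ℝ), a ≠ 0 ∧ ∀ x ∈ A, ∑ i, a i * x i = b

/-- `P 0, ..., P (m - 1)` is a partition of `S` into nonempty parts. -/
structure IsPartition {d m : ℕ} (S : Finset (Fin d → ℝ)) (P : Fin m → Finset (Fin d → ℝ)) : Prop where
  nonempty : ∀ i, (P i).Nonempty
  disjoint : ∀ i j, i ≠ j → Disjoint (P i) (P j)
  cover : ∀ x, x ∈ S ↔ ∃ i, x ∈ P i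

/-- The faces of the nerve: the sets `I` such that the convex hulls of the parts `P i`, `i ∈ I`, have
a common point. -/
def IsNerveFace {d m : ℕ} (P : Fin m → Finset (Fin d → ℝ)) (I : Finset (Fin m)) : Prop :=
  (⋂ i ∈ I, convexHull ℝ (P i : Set (Fin d → ℝ))).Nonempty

/-- The faces of a graph, as a complex of dimension at most one: the empty set, the vertices, the edges. -/
def IsGraphFace {V : Type} (T : SimpleGraph V) (I : Finset V) : Prop :=
  I.card ≤ 1 ∨ ∃ u v, T.Adj u v ∧ (I : Set V) = {u, v}

/-- Some partition of `S` has a nerve isomorphic to the graph `T`. -/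
def PartitionInduced {d : ℕ} {V : Type} (T : SimpleGraph V) (S : Finset (Fin d → ℝ)) : Prop :=
  ∃ (m : ℕ) (P : Fin m → Finset (Fin d → ℝ)) (e : Fin m ≃ V), IsPartition S P ∧
    ∀ I : Finset (Fin m), IsNerveFace P I ↔ IsGraphFace T (I.map e.toEmbedding)

/-- The Tverberg number: the least `c` such that `T` is partition induced on every set of more than
`c` points of `ℝ ^ d` in general position. -/
noncomputable def tverbergNumber {V : Type} (T : SimpleGraph V) (d : ℕ) : ℕ :=
  sInf {c | ∀ S : Finset (Fin d → ℝ), GeneralPosition S → c < S.card → PartitionInduced T S}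

/-- The inner nodes: the nodes with at least two neighbours. -/
def innerNodes {V : Type} (T : SimpleGraph V) : Set V :=
  {v | ∃ a b, a ≠ b ∧ T.Adj v a ∧ T.Adj v b}

/-- `X` is a vertex cover: it contains an end of every edge. -/
def IsCover {V : Type} (T : SimpleGraph V) (X : Finset V) : Prop :=
  ∀ u v, T.Adj u v → u ∈ X ∨ v ∈ X

theorem genPos {d : ℕ} {S : Finset (Fin d → ℝ)} (h : GeneralPosition S) : Pool.Agent.Helper71.TVS.GP d S := by
  intro A hA hc φ b hφ hall
  refine h A hA hc ⟨fun i => φ (Pi.single i 1), b, ?_, fun x hx => ?_⟩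
  · intro h0
    apply hφ
    apply LinearMap.pi_ext'
    intro i
    apply LinearMap.ext_ring
    simpa using congrFun h0 i
  · rw [← hall x hx, LinearMap.pi_apply_eq_sum_univ φ x]
    apply Finset.sum_congr rfl
    intro i _
    have h1 : (Pi.single i (1 : ℝ) : Fin d → ℝ) = fun j => if i = j then 1 else 0 := by
      ext j
      by_cases hij : i = j
      · subst hij
        simp
      · rw [Pi.single_eq_of_ne (Ne.symm hij), if_neg hij]
    show φ (Pi.single i (1 : ℝ)) * x i = x i • φ fun j => if i = j then 1 else 0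
    rw [← h1, smul_eq_mul, mul_comm]

/-- a partition with the pairwise pattern of a tree induces the tree -/
theorem induced_of_pairs {d : ℕ} {V : Type} [Fintype V] {T : SimpleGraph V} (hT : T.IsTree)
    {S : Finset (Fin d → ℝ)} (P : V → Finset (Fin d → ℝ)) (h1 : ∀ i, (P i).Nonempty)
    (h2 : ∀ i i', i ≠ i' → Disjoint (P i) (P i')) (h3 : ∀ x, x ∈ S ↔ ∃ i, x ∈ P i)
    (h4 : ∀ i i', i ≠ i' → (Pool.Agent.Helper71.TVS.Meet (P i) (P i') ↔ T.Adj i i')) :
    PartitionInduced T S := by
  classical
  let e : Fin (Fintype.card V) ≃ V := (Fintype.equivFin V).symm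
  have hmeet : ∀ i j, i ≠ j → ((convexHull ℝ (P (e i) : Set (Fin d → ℝ)) ∩
      convexHull ℝ (P (e j) : Set (Fin d → ℝ))).Nonempty ↔ T.Adj (e i) (e j)) := fun i j hij =>
    h4 (e i) (e j) (fun h => hij (e.injective h))
  refine ⟨Fintype.card V, fun i => P (e i), e, ⟨fun i => h1 _, fun i j hij => h2 _ _ (fun h => hij (e.injective h)),
    ?_⟩, ?_⟩
  · intro x
    rw [h3 x]
    constructor
    · rintro ⟨v, hv⟩
      exact ⟨e.symm v, by rwa [Equiv.apply_symm_apply]⟩
    · rintro ⟨i, hi⟩
      exact ⟨e i, hi⟩
  · intro I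
    constructor
    · rintro ⟨z, hz⟩
      rw [Set.mem_iInter₂] at hz
      by_cases hI : I.card ≤ 1
      · left
        rw [card_map]
        exact hI
      · right
        obtain ⟨i, hi, j, hj, hij⟩ := one_lt_card.1 (not_le.1 hI)
        have hadj : ∀ a ∈ I, ∀ b ∈ I, a ≠ b → T.Adj (e a) (e b) := fun a ha b hb hab =>
          (hmeet a b hab).1 ⟨z, hz a ha, hz b hb⟩
        refine ⟨e i, e j, hadj i hi j hj hij, ?_⟩
        ext v
        simp only [coe_map, Equiv.coe_toEmbedding, Set.mem_image, mem_coe, Set.mem_insert_iff, Set.mem_singleton_iff]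
        constructor
        · rintro ⟨k, hk, rfl⟩
          by_contra hcon
          rw [not_or] at hcon
          have hki : k ≠ i := fun h => hcon.1 (by rw [h])
          have hkj : k ≠ j := fun h => hcon.2 (by rw [h])
          refine hT.isAcyclic.cliqueFree le_rfl {e k, e i, e j} ?_
          rw [SimpleGraph.is3Clique_triple_iff]
          exact ⟨hadj k hk i hi hki, hadj k hk j hj hkj, hadj i hi j hj hij⟩
        · rintro (rfl | rfl)
          · exact ⟨i, hi, rfl⟩
          · exact ⟨j, hj, rfl⟩
    · rintro (hI | ⟨u, v, huv, hI⟩)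
      · rw [card_map] at hI
        rcases Nat.le_one_iff_eq_zero_or_eq_one.1 hI with h0 | h0
        · rw [card_eq_zero] at h0
          subst h0
          exact ⟨0, by simp⟩
        · obtain ⟨i, rfl⟩ := card_eq_one.1 h0
          obtain ⟨x, hx⟩ := h1 (e i)
          exact ⟨x, by simpa using subset_convexHull ℝ _ (mem_coe.2 hx)⟩
      · have hmem : ∀ k, k ∈ I ↔ e k = u ∨ e k = v := by
          intro k
          have := Set.ext_iff.1 hI (e k)
          simpa using this
        have huv' : e.symm u ≠ e.symm v := fun h => huv.ne (e.symm.injective h)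
        obtain ⟨z, hz, hz'⟩ := (hmeet (e.symm u) (e.symm v) huv').2 (by simpa using huv)
        rw [Equiv.apply_symm_apply] at hz hz'
        refine ⟨z, Set.mem_iInter₂.2 fun k hk => ?_⟩
        rcases (hmem k).1 hk with h | h
        · show z ∈ convexHull ℝ (P (e k) : Set (Fin d → ℝ))
          rw [h]
          exact hz
        · show z ∈ convexHull ℝ (P (e k) : Set (Fin d → ℝ))
          rw [h]
          exact hz'

/-- the tree is not induced on some points of the moment curve -/
theorem not_induced (k : ℕ) {V : Type} [Fintype V] {T : SimpleGraph V} (hT : T.IsTree) (t : ℕ)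
    (ht : ∀ X : Finset V, IsCover T X → t < X.card) :
    ¬ PartitionInduced T (Pool.Agent.Helper71.TVS.momSet (2 * k + 1) ((k + 1) * Fintype.card V + t)) := by
  classical
  rintro ⟨m, P, e, ⟨h1, h2, h3⟩, h4⟩
  have hV : 2 ≤ Fintype.card V := by
    by_contra hcon
    have hss : Subsingleton V := Fintype.card_le_one_iff_subsingleton.1 (by omega)
    have := ht ∅ (fun u v h => absurd (Subsingleton.elim u v) h.ne)
    simp at this
  have hsub : ∀ i, P i ⊆ Pool.Agent.Helper71.TVS.momSet (2 * k + 1) ((k + 1) * Fintype.card V + t) :=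
    fun i x hx => (h3 x).2 ⟨i, hx⟩
  have hmeet : ∀ i j, i ≠ j → T.Adj (e i) (e j) → Pool.Agent.Helper71.TVS.Meet (P i) (P j) := by
    intro i j hij hadj
    obtain ⟨z, hz⟩ := (h4 {i, j}).2 (Or.inr ⟨e i, e j, hadj, by simp⟩)
    rw [Set.mem_iInter₂] at hz
    exact ⟨z, hz i (by simp), hz j (by simp)⟩
  have hlarge : ∀ i, k + 1 ≤ (P i).card := by
    intro i
    by_contra hcon
    obtain ⟨a, ha⟩ := Pool.Agent.Helper71.TVW.exists_nbr hT.connected hV (e i)
    have hij : i ≠ e.symm a := by
      rintro rfl
      rw [Equiv.apply_symm_apply] at ha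
      exact ha.ne rfl
    exact Pool.Agent.Helper71.TVS.small_face (k := k) (by omega) (by omega) (hsub i) (hsub (e.symm a))
      (h2 i _ hij) (by omega) (hmeet i _ hij (by rwa [Equiv.apply_symm_apply]))
  have hGP : GeneralPosition (Pool.Agent.Helper71.TVS.momSet (2 * k + 1) ((k + 1) * Fintype.card V + t)) :=
    Pool.Agent.Helper71.TVS.genPos_mom (by omega) _
  set X : Finset V := univ.filter (fun v => k + 2 ≤ (P (e.symm v)).card) with hX
  have hcov : IsCover T X := by
    intro u v huv
    by_contra hcon
    rw [not_or] at hcon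
    have hu : (P (e.symm u)).card = k + 1 := by
      have a1 := hlarge (e.symm u)
      have a2 : ¬ k + 2 ≤ (P (e.symm u)).card := fun h => hcon.1 (mem_filter.2 ⟨mem_univ _, h⟩)
      omega
    have hv : (P (e.symm v)).card = k + 1 := by
      have a1 := hlarge (e.symm v)
      have a2 : ¬ k + 2 ≤ (P (e.symm v)).card := fun h => hcon.2 (mem_filter.2 ⟨mem_univ _, h⟩)
      omega
    have hij : e.symm u ≠ e.symm v := fun h => huv.ne (e.symm.injective h)
    refine Pool.Agent.Helper71.TVS.not_meet_of_GP (by simp) (genPos hGP) (hsub _) (hsub _) (h2 _ _ hij) ?_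
      (hmeet _ _ hij (by simpa using huv))
    rw [hu, hv]
    ring
  have hsum : ∑ i, (P i).card = (k + 1) * Fintype.card V + t := by
    rw [← card_biUnion (fun i _ j _ hij => h2 i j hij)]
    have : univ.biUnion P = Pool.Agent.Helper71.TVS.momSet (2 * k + 1) ((k + 1) * Fintype.card V + t) := by
      ext x
      rw [mem_biUnion, h3 x]
      simp
    rw [this, Pool.Agent.Helper71.TVS.card_momSet (by omega)]
  have hsum' : ∑ v, (P (e.symm v)).card = (k + 1) * Fintype.card V + t := by
    rw [← hsum]
    exact Equiv.sum_comp e.symm (fun i => (P i).card)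
  have hge : (k + 1) * Fintype.card V + X.card ≤ ∑ v, (P (e.symm v)).card := by
    have a1 : (k + 1) * Fintype.card V + X.card = ∑ v : V, ((k + 1) + if k + 2 ≤ (P (e.symm v)).card then 1 else 0) := by
      rw [sum_add_distrib, sum_const, card_univ, smul_eq_mul, hX, card_filter]
      ring
    rw [a1]
    refine sum_le_sum fun v _ => ?_
    have a2 := hlarge (e.symm v)
    split_ifs with h
    · omega
    · omega
  have := ht X hcov
  omega

/-- every tree is induced on all large sets (the general theorem) -/
theorem induced_large {d : ℕ} (hd : 2 ≤ d) {V : Type} [Fintype V] {T : SimpleGraph V} (hT : T.IsTree)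
    (S : Finset (Fin d → ℝ)) (hS : GeneralPosition S) (hc : (d + 1) * (Fintype.card V - 1) + 1 ≤ S.card) :
    PartitionInduced T S := by
  classical
  obtain ⟨c, h1, h2⟩ := Pool.Agent.Helper33.TVT.tree_labels (E := Fin d → ℝ) (d := d) (by simp) hd hT
    (genPos hS) hc
  refine induced_of_pairs hT (fun v => S.filter (fun x => c x = v)) ?_ ?_ ?_ ?_
  · intro v
    obtain ⟨x, hx, hx'⟩ := h1 v
    exact ⟨x, mem_filter.2 ⟨hx, hx'⟩⟩
  · intro u v huv
    rw [disjoint_left]
    intro x hx hx'
    exact huv ((mem_filter.1 hx).2.symm.trans (mem_filter.1 hx').2)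
  · intro x
    constructor
    · intro hx
      exact ⟨c x, mem_filter.2 ⟨hx, rfl⟩⟩
    · rintro ⟨v, hv⟩
      exact (mem_filter.1 hv).1
  · intro u v huv
    have h3 : ∀ w : V, ((S.filter (fun x => c x = w) : Finset (Fin d → ℝ)) : Set (Fin d → ℝ)) =
        {x | x ∈ S ∧ c x = w} := by
      intro w
      ext x
      simp
    have h4 := h2 u v huv
    rw [← h3 u, ← h3 v] at h4
    exact h4

/-- **The Tverberg numbers of trees in odd dimension `2k+1 ≥ 3`.** -/
theorem result (k : ℕ) (hk : 1 ≤ k) :
    (∀ (V : Type) [Fintype V] (T : SimpleGraph V), T.IsTree → ∀ t : ℕ,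
      (∀ X : Finset V, IsCover T X → t < X.card) →
      (∃ S : Finset (Fin (2 * k + 1) → ℝ), GeneralPosition S ∧ S.card = (k + 1) * Fintype.card V + t ∧
        ¬ PartitionInduced T S) ∧
      (k + 1) * Fintype.card V + t ≤ tverbergNumber T (2 * k + 1)) ∧
    (∀ ε : ℝ, 0 < ε → ∃ C : ℕ, ∀ (V : Type) [Fintype V] (T : SimpleGraph V), T.IsTree →
      3 ≤ Fintype.card V →
      (∀ S : Finset (Fin (2 * k + 1) → ℝ), GeneralPosition S →
        ((k : ℝ) + 1 + ε) * Fintype.card V + C * (innerNodes T).ncard ≤ S.card → PartitionInduced T S) ∧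
      (tverbergNumber T (2 * k + 1) : ℝ) ≤ ((k : ℝ) + 1 + ε) * Fintype.card V + C * (innerNodes T).ncard) ∧
    (∀ (V : ℕ → Type) [∀ m, Fintype (V m)] (T : ∀ m, SimpleGraph (V m)), (∀ m, (T m).IsTree) →
      Filter.Tendsto (fun m => Fintype.card (V m)) Filter.atTop Filter.atTop →
      Filter.Tendsto (fun m => ((innerNodes (T m)).ncard : ℝ) / Fintype.card (V m)) Filter.atTop (nhds 0) →
      Filter.Tendsto (fun m => (tverbergNumber (T m) (2 * k + 1) : ℝ) / Fintype.card (V m)) Filter.atTop
        (nhds ((k : ℝ) + 1))) := by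
  classical
  have hE : Module.finrank ℝ (Fin (2 * k + 1) → ℝ) = 2 * k + 1 := by simp
  -- the set of the definition is not empty
  have hmem : ∀ (V : Type) [Fintype V] (T : SimpleGraph V), T.IsTree → ∀ S : Finset (Fin (2 * k + 1) → ℝ),
      GeneralPosition S → tverbergNumber T (2 * k + 1) < S.card → PartitionInduced T S := by
    intro V _ T hT
    have hne : ∃ c : ℕ, ∀ S : Finset (Fin (2 * k + 1) → ℝ), GeneralPosition S → c < S.card →
        PartitionInduced T S :=
      ⟨(2 * k + 1 + 1) * (Fintype.card V - 1), fun S hS hc => induced_large (by omega) hT S hS hc⟩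
    exact Nat.sInf_mem hne
  have hlow : ∀ (V : Type) [Fintype V] (T : SimpleGraph V), T.IsTree → ∀ t : ℕ,
      (∀ X : Finset V, IsCover T X → t < X.card) →
      (∃ S : Finset (Fin (2 * k + 1) → ℝ), GeneralPosition S ∧ S.card = (k + 1) * Fintype.card V + t ∧
        ¬ PartitionInduced T S) ∧
      (k + 1) * Fintype.card V + t ≤ tverbergNumber T (2 * k + 1) := by
    intro V _ T hT t ht
    have h1 : ∃ S : Finset (Fin (2 * k + 1) → ℝ), GeneralPosition S ∧ S.card = (k + 1) * Fintype.card V + t ∧
        ¬ PartitionInduced T S :=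
      ⟨Pool.Agent.Helper71.TVS.momSet (2 * k + 1) ((k + 1) * Fintype.card V + t),
        Pool.Agent.Helper71.TVS.genPos_mom (by omega) _, Pool.Agent.Helper71.TVS.card_momSet (by omega) _,
        not_induced k hT t ht⟩
    refine ⟨h1, ?_⟩
    by_contra hcon
    obtain ⟨S, hS, hc, hnot⟩ := h1
    exact hnot (hmem V T hT S hS (by omega))
  have hup : ∀ ε : ℝ, 0 < ε → ∃ C : ℕ, ∀ (V : Type) [Fintype V] (T : SimpleGraph V), T.IsTree →
      3 ≤ Fintype.card V →
      (∀ S : Finset (Fin (2 * k + 1) → ℝ), GeneralPosition S →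
        ((k : ℝ) + 1 + ε) * Fintype.card V + C * (innerNodes T).ncard ≤ S.card → PartitionInduced T S) ∧
      (tverbergNumber T (2 * k + 1) : ℝ) ≤ ((k : ℝ) + 1 + ε) * Fintype.card V + C * (innerNodes T).ncard := by
    intro ε hε
    obtain ⟨C, hC⟩ := Pool.Agent.Helper71.TVW.tree_upper hk hE hε
    refine ⟨C, fun V _ T hT hV => ?_⟩
    have h1 : ∀ S : Finset (Fin (2 * k + 1) → ℝ), GeneralPosition S →
        ((k : ℝ) + 1 + ε) * Fintype.card V + C * (innerNodes T).ncard ≤ S.card → PartitionInduced T S := by
      intro S hS hc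
      obtain ⟨P, p1, p2, p3, p4⟩ := hC V T hT hV S (genPos hS) hc
      exact induced_of_pairs hT P p1 p2 p3 p4
    refine ⟨h1, ?_⟩
    have hx0 : (0 : ℝ) ≤ ((k : ℝ) + 1 + ε) * Fintype.card V + C * (innerNodes T).ncard := by positivity
    have h2 : tverbergNumber T (2 * k + 1) ≤ ⌊((k : ℝ) + 1 + ε) * Fintype.card V + C * (innerNodes T).ncard⌋₊ :=
      Nat.sInf_le fun S hS hc => h1 S hS ((Nat.floor_lt hx0).1 hc).le
    exact le_trans (by exact_mod_cast h2) (Nat.floor_le hx0)
  refine ⟨hlow, hup, ?_⟩
  intro V _ T hT hcard hinner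
  rw [Metric.tendsto_atTop]
  intro ε hε
  obtain ⟨C, hC⟩ := hup (ε / 2) (by positivity)
  have h1 : Filter.Tendsto (fun m => (C : ℝ) * (((innerNodes (T m)).ncard : ℝ) / Fintype.card (V m))) Filter.atTop
      (nhds 0) := by
    have := hinner.const_mul (C : ℝ)
    rwa [mul_zero] at this
  obtain ⟨m₀, hm₀⟩ := Filter.eventually_atTop.1 (h1.eventually (gt_mem_nhds (show (0 : ℝ) < ε / 2 by positivity)))
  obtain ⟨m₁, hm₁⟩ := Filter.eventually_atTop.1 (hcard.eventually (Filter.eventually_ge_atTop 3))
  refine ⟨max m₀ m₁, fun m hm => ?_⟩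
  have hn := hm₁ m ((le_max_right _ _).trans hm)
  have hC' := hm₀ m ((le_max_left _ _).trans hm)
  have hpos : (0 : ℝ) < Fintype.card (V m) := by
    have : 0 < Fintype.card (V m) := by omega
    exact_mod_cast this
  have hcov : ∀ X : Finset (V m), IsCover (T m) X → 0 < X.card := by
    intro X hX
    obtain ⟨u⟩ := (hT m).connected.nonempty
    obtain ⟨a, ha⟩ := Pool.Agent.Helper71.TVW.exists_nbr (hT m).connected (by omega) u
    rcases hX u a ha with h | h
    · exact card_pos.2 ⟨_, h⟩
    · exact card_pos.2 ⟨_, h⟩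
  have hl : ((k : ℝ) + 1) * Fintype.card (V m) ≤ tverbergNumber (T m) (2 * k + 1) := by
    have := (hlow (V m) (T m) (hT m) 0 hcov).2
    rw [add_zero] at this
    exact_mod_cast this
  have hu := (hC (V m) (T m) (hT m) hn).2
  rw [Real.dist_eq, abs_lt]
  constructor
  · have : (k : ℝ) + 1 ≤ (tverbergNumber (T m) (2 * k + 1) : ℝ) / Fintype.card (V m) := by
      rw [le_div_iff₀ hpos]
      exact hl
    linarith
  · have : (tverbergNumber (T m) (2 * k + 1) : ℝ) / Fintype.card (V m) < (k : ℝ) + 1 + ε := by
      rw [div_lt_iff₀ hpos]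
      have h3 : (C : ℝ) * (innerNodes (T m)).ncard < ε / 2 * Fintype.card (V m) := by
        have h4 := mul_lt_mul_of_pos_right hC' hpos
        have h5 : (C : ℝ) * (((innerNodes (T m)).ncard : ℝ) / Fintype.card (V m)) * Fintype.card (V m) =
            C * (innerNodes (T m)).ncard := by
          field_simp
        rwa [h5] at h4
      nlinarith
    linarith

end Pool.Agent.Results.MP_92efc2_co.OddDimension
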