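import Mathlib
import Pool.Agent.Helper71.TVS.Upper
import Pool.Agent.Helper71.TVS.Lower

/-!
# Tverberg numbers of stars in odd dimension

In `ℝ ^ (2k+1)` the Tverberg number of the star with `n` nodes is `(k + 1 + o(1)) n`: half of the general
upper bound `(d + 1) (n - 1) + 1`.

Lower bound: on the moment curve every set of at most `k` points is a face, so every part of a partition
with connected nerve has at least `k + 1` points; two parts with `k + 1` points each are disjoint.

Upper bound: let `B` be a small set meeting every subset `X` of `S` with at least `ε |S|` points whose hull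
is disjoint from the hull of `S \ X` (the family of these `X` has bounded VC dimension, by Radon's theorem,
hence polynomial size). Every set of `c ε |S|` points contains `k + 1` points whose hull meets the hull of
`B`: otherwise a random `(3k+3)`-tuple of them would contradict Radon's theorem. So `k + 1` points at a time
are taken for the leaves; the hulls of two leaves are disjoint, since `2k + 2` points in general position
are affinely independent.
-/

set_option autoImplicit false

open Finset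

namespace Pool.Agent.Results.MP_92efc2_co.StarsOdd

/-- No `d + 1` points of `S` lie on a common affine hyperplane `a ⬝ x = b`, `a ≠ 0`. -/
def GeneralPosition {d : ℕ} (S : Finset (Fin d → ℝ)) : Prop :=
  ∀ A ⊆ S, A.card = d + 1 → ¬ ∃ (a : Fin d → ℝ) (b : ℝ), a ≠ 0 ∧ ∀ x ∈ A, ∑ i, a i * x i = b

/-- `P 0, ..., P (m - 1)` is a partition of `S` into nonempty parts. -/
structure IsPartition {d m : ℕ} (S : Finset (Fin d → ℝ)) (P : Fin m → Finset (Fin d → ℝ)) : Prop where
  nonempty : ∀ i, (P i).Nonempty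
  disjoint : ∀ i j, i ≠ j → Disjoint (P i) (P j)
  cover : ∀ x, x ∈ S ↔ ∃ i, x ∈ P i

/-- The faces of the nerve: the sets `I` such that the convex hulls of the parts `P i`, `i ∈ I`, have
a common point. -/
def IsNerveFace {d m : ℕ} (P : Fin m → Finset (Fin d → ℝ)) (I : Finset (Fin m)) : Prop :=
  (⋂ i ∈ I, convexHull ℝ (P i : Set (Fin d → ℝ))).Nonempty

/-- The faces of a graph, as a complex of dimension at most one: the empty set, the vertices, the edges. -/
def IsGraphFace {V : Type} (T : SimpleGraph V) (I : Finset V) : Prop :=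
  I.card ≤ 1 ∨ ∃ u v, T.Adj u v ∧ (I : Set V) = {u, v}

/-- Some partition of `S` has a nerve isomorphic to the graph `T`. -/
def PartitionInduced {d : ℕ} {V : Type} (T : SimpleGraph V) (S : Finset (Fin d → ℝ)) : Prop :=
  ∃ (m : ℕ) (P : Fin m → Finset (Fin d → ℝ)) (e : Fin m ≃ V), IsPartition S P ∧
    ∀ I : Finset (Fin m), IsNerveFace P I ↔ IsGraphFace T (I.map e.toEmbedding)

/-- The Tverberg number: the least `c` such that `T` is partition induced on every set of more than
`c` points of `ℝ ^ d` in general position. -/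
noncomputable def tverbergNumber {V : Type} (T : SimpleGraph V) (d : ℕ) : ℕ :=
  sInf {c | ∀ S : Finset (Fin d → ℝ), GeneralPosition S → c < S.card → PartitionInduced T S}

/-- The star with `n` leaves, hence `n + 1` nodes: the node `0` is joined to all other nodes. -/
def star (n : ℕ) : SimpleGraph (Fin (n + 1)) where
  Adj i j := i ≠ j ∧ (i = 0 ∨ j = 0)
  symm := ⟨fun i j h => ⟨h.1.symm, h.2.symm⟩⟩
  loopless := ⟨fun i h => h.1 rfl⟩

theorem genPos {d : ℕ} {S : Finset (Fin d → ℝ)} (h : GeneralPosition S) : Pool.Agent.Helper71.TVS.GP d S := by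
  intro A hA hc φ b hφ hall
  refine h A hA hc ⟨fun i => φ (Pi.single i 1), b, ?_, fun x hx => ?_⟩
  · intro h0
    apply hφ
    apply LinearMap.pi_ext'
    intro i
    apply LinearMap.ext_ring
    simpa using congrFun h0 i
  · rw [← hall x hx, LinearMap.pi_apply_eq_sum_univ φ x]
    apply Finset.sum_congr rfl
    intro i _
    have h1 : (Pi.single i (1 : ℝ) : Fin d → ℝ) = fun j => if i = j then 1 else 0 := by
      ext j
      by_cases hij : i = j
      · subst hij
        simp
      · rw [Pi.single_eq_of_ne (Ne.symm hij), if_neg hij]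
    show φ (Pi.single i (1 : ℝ)) * x i = x i • φ fun j => if i = j then 1 else 0
    rw [← h1, smul_eq_mul, mul_comm]

/-- a partition with the pairwise pattern of a star induces the star -/
theorem induced_of_pairs {d n : ℕ} {S : Finset (Fin d → ℝ)} (P : Fin (n + 1) → Finset (Fin d → ℝ))
    (h1 : ∀ i, (P i).Nonempty) (h2 : ∀ i i', i ≠ i' → Disjoint (P i) (P i'))
    (h3 : ∀ x, x ∈ S ↔ ∃ i, x ∈ P i)
    (h4 : ∀ i i', i ≠ i' → (Pool.Agent.Helper71.TVS.Meet (P i) (P i') ↔ i = 0 ∨ i' = 0)) :
    PartitionInduced (star n) S := by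
  classical
  refine ⟨n + 1, P, Equiv.refl _, ⟨h1, h2, h3⟩, fun I => ?_⟩
  have hI : I.map (Equiv.refl (Fin (n + 1))).toEmbedding = I := by
    ext i
    simp
  rw [hI]
  constructor
  · rintro ⟨z, hz⟩
    rw [Set.mem_iInter₂] at hz
    have hadj : ∀ a ∈ I, ∀ b ∈ I, a ≠ b → a = 0 ∨ b = 0 := fun a ha b hb hab =>
      (h4 a b hab).1 ⟨z, hz a ha, hz b hb⟩
    by_cases hc : I.card ≤ 1
    · exact Or.inl hc
    · right
      obtain ⟨i, hi, j, hj, hij⟩ := one_lt_card.1 (not_le.1 hc)
      refine ⟨i, j, ⟨hij, hadj i hi j hj hij⟩, ?_⟩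
      ext v
      simp only [mem_coe, Set.mem_insert_iff, Set.mem_singleton_iff]
      constructor
      · intro hv
        by_contra hcon
        rw [not_or] at hcon
        have a1 := hadj i hi j hj hij
        have a2 := hadj v hv i hi hcon.1
        have a3 := hadj v hv j hj hcon.2
        rcases a1 with a1 | a1
        · rcases a3 with a3 | a3
          · exact hcon.1 (a3.trans a1.symm)
          · exact hij (a1.trans a3.symm)
        · rcases a2 with a2 | a2
          · exact hcon.2 (a2.trans a1.symm)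
          · exact hij (a2.trans a1.symm)
      · rintro (rfl | rfl)
        · exact hi
        · exact hj
  · rintro (hI | ⟨u, v, huv, hI⟩)
    · rcases Nat.le_one_iff_eq_zero_or_eq_one.1 hI with h0 | h0
      · rw [card_eq_zero] at h0
        subst h0
        exact ⟨0, by simp⟩
      · obtain ⟨i, rfl⟩ := card_eq_one.1 h0
        obtain ⟨x, hx⟩ := h1 i
        exact ⟨x, by simpa using subset_convexHull ℝ _ (mem_coe.2 hx)⟩
    · have hmem : ∀ k, k ∈ I ↔ k = u ∨ k = v := by
        intro k
        have := Set.ext_iff.1 hI k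
        simpa using this
      obtain ⟨z, hz, hz'⟩ := (h4 u v huv.1).2 huv.2
      refine ⟨z, Set.mem_iInter₂.2 fun k hk => ?_⟩
      rcases (hmem k).1 hk with h | h
      · rw [h]
        exact hz
      · rw [h]
        exact hz'

/-- the star is not induced on `(k+1) n` points of the moment curve -/
theorem not_induced (k n : ℕ) (hn : 1 ≤ n) :
    ¬ PartitionInduced (star n) (Pool.Agent.Helper71.TVS.momSet (2 * k + 1) ((k + 1) * (n + 1))) := by
  classical
  rintro ⟨m, P, e, ⟨h1, h2, h3⟩, h4⟩
  have hm : m = n + 1 := by simpa using Fintype.card_congr e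
  have hsub : ∀ i, P i ⊆ Pool.Agent.Helper71.TVS.momSet (2 * k + 1) ((k + 1) * (n + 1)) :=
    fun i x hx => (h3 x).2 ⟨i, hx⟩
  -- pairs
  have hmeet : ∀ i j, i ≠ j → (star n).Adj (e i) (e j) → Pool.Agent.Helper71.TVS.Meet (P i) (P j) := by
    intro i j hij hadj
    obtain ⟨z, hz⟩ := (h4 {i, j}).2 (Or.inr ⟨e i, e j, hadj, by simp⟩)
    rw [Set.mem_iInter₂] at hz
    exact ⟨z, hz i (by simp), hz j (by simp)⟩
  have hlarge : ∀ i, k + 1 ≤ (P i).card := by
    intro i
    by_contra hcon
    have hex : ∃ j, i ≠ j ∧ (star n).Adj (e i) (e j) := by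
      by_cases h0 : e i = 0
      · refine ⟨e.symm (Fin.last n), ?_, ?_⟩
        · rintro rfl
          rw [Equiv.apply_symm_apply, Fin.ext_iff] at h0
          simp only [Fin.val_last, Fin.val_zero] at h0
          omega
        · refine ⟨?_, Or.inl h0⟩
          rw [h0, Equiv.apply_symm_apply]
          intro h
          rw [Fin.ext_iff] at h
          simp only [Fin.val_last, Fin.val_zero] at h
          omega
      · refine ⟨e.symm 0, ?_, ?_⟩
        · rintro rfl
          exact h0 (Equiv.apply_symm_apply e 0)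
        · rw [Equiv.apply_symm_apply]
          exact ⟨h0, Or.inr rfl⟩
    obtain ⟨j, hij, hadj⟩ := hex
    exact Pool.Agent.Helper71.TVS.small_face (k := k) (by omega) (by omega) (hsub i) (hsub j) (h2 i j hij) (by omega)
      (hmeet i j hij hadj)
  have hsum : ∑ i, (P i).card = (k + 1) * (n + 1) := by
    rw [← card_biUnion (fun i _ j _ hij => h2 i j hij)]
    have : univ.biUnion P = Pool.Agent.Helper71.TVS.momSet (2 * k + 1) ((k + 1) * (n + 1)) := by
      ext x
      rw [mem_biUnion, h3 x]
      simp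
    rw [this, Pool.Agent.Helper71.TVS.card_momSet (by omega)]
  have heq : ∀ i, (P i).card = k + 1 := by
    have h5 : ∑ i : Fin m, (k + 1) = ∑ i, (P i).card := by
      rw [hsum, sum_const, card_univ, Fintype.card_fin, smul_eq_mul, hm]
      ring
    intro i
    exact ((sum_eq_sum_iff_of_le (fun i _ => hlarge i)).1 h5 i (mem_univ i)).symm
  have hij : e.symm 0 ≠ e.symm (Fin.last n) := by
    intro h
    have h6 := e.symm.injective h
    rw [Fin.ext_iff] at h6
    simp only [Fin.val_last, Fin.val_zero] at h6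
    omega
  have hadj : (star n).Adj (e (e.symm 0)) (e (e.symm (Fin.last n))) := by
    refine ⟨?_, Or.inl (Equiv.apply_symm_apply e 0)⟩
    intro h
    exact hij (e.injective h)
  have hGP : GeneralPosition (Pool.Agent.Helper71.TVS.momSet (2 * k + 1) ((k + 1) * (n + 1))) :=
    Pool.Agent.Helper71.TVS.genPos_mom (by omega) _
  refine Pool.Agent.Helper71.TVS.not_meet_of_GP (by simp) (genPos hGP) (hsub _) (hsub _) (h2 _ _ hij) ?_
    (hmeet _ _ hij hadj)
  rw [heq, heq]
  ring

/-- **The Tverberg numbers of stars in odd dimension `2k+1`.** For the star with `n + 1` nodes: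
the lower bound `(k + 1) (n + 1)`, attained by points of the moment curve on which the star is not
partition induced, and the limit `k + 1` of the quotient by the number of nodes. -/
theorem result (k : ℕ) :
    (∀ n : ℕ, 1 ≤ n → ∃ S : Finset (Fin (2 * k + 1) → ℝ), GeneralPosition S ∧ S.card = (k + 1) * (n + 1) ∧
      ¬ PartitionInduced (star n) S) ∧
    (∀ ε : ℝ, 0 < ε → ∃ n₀ : ℕ, ∀ n : ℕ, n₀ ≤ n → ∀ S : Finset (Fin (2 * k + 1) → ℝ), GeneralPosition S →
      ((k : ℝ) + 1 + ε) * (n + 1) ≤ S.card → PartitionInduced (star n) S) ∧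
    (∀ n : ℕ, 1 ≤ n → (k + 1) * (n + 1) ≤ tverbergNumber (star n) (2 * k + 1)) ∧
    Filter.Tendsto (fun n : ℕ => (tverbergNumber (star n) (2 * k + 1) : ℝ) / (n + 1)) Filter.atTop
      (nhds ((k : ℝ) + 1)) := by
  classical
  have hE : Module.finrank ℝ (Fin (2 * k + 1) → ℝ) = 2 * k + 1 := by simp
  have hlow : ∀ n : ℕ, 1 ≤ n → ∃ S : Finset (Fin (2 * k + 1) → ℝ), GeneralPosition S ∧
      S.card = (k + 1) * (n + 1) ∧ ¬ PartitionInduced (star n) S := by
    intro n hn
    refine ⟨Pool.Agent.Helper71.TVS.momSet (2 * k + 1) ((k + 1) * (n + 1)),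
      Pool.Agent.Helper71.TVS.genPos_mom (by omega) _, Pool.Agent.Helper71.TVS.card_momSet (by omega) _,
      not_induced k n hn⟩
  -- the set of the definition is not empty
  have hne : ∀ n : ℕ, ∃ c : ℕ, ∀ S : Finset (Fin (2 * k + 1) → ℝ), GeneralPosition S → c < S.card →
      PartitionInduced (star n) S := by
    intro n
    obtain ⟨N₀, hN₀⟩ := Pool.Agent.Helper71.TVS.star_upper hE (δ := 1 / 2) (by norm_num)
    refine ⟨max N₀ (2 * ((k + 1) * n)), fun S hS hc => ?_⟩
    obtain ⟨P, h1, h2, h3, h4⟩ := hN₀ S (genPos hS) ((le_max_left _ _).trans hc.le) n (by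
      have h5 : 2 * ((k + 1) * n) ≤ S.card := (le_max_right _ _).trans hc.le
      have h6 : (2 * (((k : ℝ) + 1) * n)) ≤ S.card := by exact_mod_cast h5
      linarith)
    exact induced_of_pairs P h1 h2 h3 h4
  have hmem : ∀ n : ℕ, ∀ S : Finset (Fin (2 * k + 1) → ℝ), GeneralPosition S →
      tverbergNumber (star n) (2 * k + 1) < S.card → PartitionInduced (star n) S := fun n => Nat.sInf_mem (hne n)
  have hlow' : ∀ n : ℕ, 1 ≤ n → (k + 1) * (n + 1) ≤ tverbergNumber (star n) (2 * k + 1) := by
    intro n hn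
    by_contra hcon
    obtain ⟨S, hS, hc, hnot⟩ := hlow n hn
    exact hnot (hmem n S hS (by omega))
  have hup : ∀ ε : ℝ, 0 < ε → ∃ n₀ : ℕ, ∀ n : ℕ, n₀ ≤ n → ∀ S : Finset (Fin (2 * k + 1) → ℝ),
      GeneralPosition S → ((k : ℝ) + 1 + ε) * (n + 1) ≤ S.card → PartitionInduced (star n) S := by
    intro ε hε
    have hk : (0 : ℝ) < (k : ℝ) + 1 := by positivity
    obtain ⟨N₀, hN₀⟩ := Pool.Agent.Helper71.TVS.star_upper hE (δ := ε / ((k : ℝ) + 1 + ε)) (by positivity)
    refine ⟨N₀, fun n hn S hS hc => ?_⟩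
    have h1 : (N₀ : ℝ) ≤ S.card := by
      have h2 : (N₀ : ℝ) ≤ n := by exact_mod_cast hn
      nlinarith
    obtain ⟨P, h1, h2, h3, h4⟩ := hN₀ S (genPos hS) (by exact_mod_cast h1) n (by
      have h5 : 1 - ε / ((k : ℝ) + 1 + ε) = ((k : ℝ) + 1) / ((k : ℝ) + 1 + ε) := by
        field_simp
        ring
      rw [h5, div_mul_eq_mul_div, le_div_iff₀ (by positivity)]
      nlinarith)
    exact induced_of_pairs P h1 h2 h3 h4
  refine ⟨hlow, hup, hlow', ?_⟩
  rw [Metric.tendsto_atTop]
  intro ε hε
  obtain ⟨n₀, hn₀⟩ := hup (ε / 2) (by positivity)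
  obtain ⟨n₁, hn₁⟩ := exists_nat_gt (2 / ε)
  refine ⟨max n₀ (max n₁ 1), fun n hn => ?_⟩
  have hn0 : n₀ ≤ n := (le_max_left _ _).trans hn
  have hn1 : n₁ ≤ n := ((le_max_left _ _).trans (le_max_right _ _)).trans hn
  have hn2 : 1 ≤ n := ((le_max_right _ _).trans (le_max_right _ _)).trans hn
  have hpos : (0 : ℝ) < (n : ℝ) + 1 := by positivity
  have hl : ((k : ℝ) + 1) * (n + 1) ≤ tverbergNumber (star n) (2 * k + 1) := by exact_mod_cast hlow' n hn2
  have hu : (tverbergNumber (star n) (2 * k + 1) : ℝ) < ((k : ℝ) + 1 + ε) * (n + 1) := by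
    have h1 : tverbergNumber (star n) (2 * k + 1) ≤ ⌈((k : ℝ) + 1 + ε / 2) * (n + 1)⌉₊ := by
      refine Nat.sInf_le fun S hS hc => hn₀ n hn0 S hS ?_
      exact (Nat.le_ceil _).trans (by exact_mod_cast hc.le)
    have h2 : (⌈((k : ℝ) + 1 + ε / 2) * (n + 1)⌉₊ : ℝ) < ((k : ℝ) + 1 + ε / 2) * (n + 1) + 1 :=
      Nat.ceil_lt_add_one (by positivity)
    have h3 : (tverbergNumber (star n) (2 * k + 1) : ℝ) ≤ (⌈((k : ℝ) + 1 + ε / 2) * (n + 1)⌉₊ : ℝ) := by
      exact_mod_cast h1
    have h4 : (1 : ℝ) < ε / 2 * (n + 1) := by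
      have h5 : 2 / ε < n := lt_of_lt_of_le hn₁ (by exact_mod_cast hn1)
      rw [div_lt_iff₀ hε] at h5
      nlinarith
    nlinarith
  rw [Real.dist_eq, abs_lt]
  constructor
  · have : (k : ℝ) + 1 ≤ (tverbergNumber (star n) (2 * k + 1) : ℝ) / (n + 1) := by
      rw [le_div_iff₀ hpos]
      exact hl
    linarith
  · have : (tverbergNumber (star n) (2 * k + 1) : ℝ) / (n + 1) < (k : ℝ) + 1 + ε := by
      rw [div_lt_iff₀ hpos]
      exact hu
    linarith

end Pool.Agent.Results.MP_92efc2_co.StarsOdd
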